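import Mathlib
import Pool.Agent.H10.CedDefs
import Pool.Agent.H10.CedShell

set_option autoImplicit false

namespace Pool.Agent.Results.MP_cf6e1a_co.NotShellable

open Pool.Agent.H10.Ced in
/-- A 3-dimensional complex with a convex ear decomposition that is not shellable. -/
theorem result : ∃ Δ : Cx, CED 4 Δ ∧ ¬ Shellable Δ :=
  ⟨Δ, ced, not_shell⟩

end Pool.Agent.Results.MP_cf6e1a_co.NotShellable
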